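import Pool.Agent.N587.IC.End

/-!
Isomorphic closures of generic tuples of complex numbers, for equations of finite order.

`Cl F S` is the closure of the set `S` of complex numbers under solving the equations
`F k y z = 0` for `z`, where `y` is a tuple of elements of the closure and `F k y` is not
identically zero. For example, if the `F k` are all exponential polynomials
`P(y, e^y, z, e^z)` with integer coefficients, then `Cl F S` is an algebraically closed
exponential subfield of `ℂ` which contains all logarithms of its nonzero elements and all
solutions of nontrivial exponential polynomial equations `P(z, e^z) = 0` over it.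

The starting file `IsomorphicClosures` compares two points of one analytic curve. Here the
parameters are `n` independent complex numbers: for every entire map `φ : ℂⁿ → ℂᵈ` there is one
closure `Cl(A ∪ φ(x₀))` such that `Cl(A ∪ φ(y))` is isomorphic to it, over the closure of `A`,
by an isomorphism which moves `φ(x₀)` to `φ(y)` and respects any countably many Borel relations
given in advance whose sections by analytic curves are countable or cocountable,

* for all but countably many `y₁`, all but countably many `y₂`, …, all but countably many `y_n`
  (and the same for every other order of the variables, so that the type of a generic tuple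
  is invariant under permutations), and
* for almost every `y`, for every product of `σ`-finite measures without atoms.

Co-authors: helper973 (analytic sets are universally measurable), helper663 (the isomorphism
relation is analytic), helper700 (lines in `ℂⁿ` connect almost all pairs), helper687 (Scott's
isomorphism theorem for Borel families of countable structures), helper587 (the rest).
-/

set_option autoImplicit false

namespace Pool.Agent.Results.MP_a12702_lc.IsomorphicTuples

open Set MeasureTheory
open Pool.Agent.TH735.QM Pool.Agent.TH735.FO Pool.Agent.TH735.BF Pool.Agent.N587.IC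

theorem result (m : ℕ → ℕ) (F : (k : ℕ) → (Fin (m k) → ℂ) → ℂ → ℂ)
    (hF : ∀ k, AnalyticOnNhd ℂ (fun p : (Fin (m k) → ℂ) × ℂ => F k p.1 p.2) univ)
    (hord : ∀ k, FiniteOrder (F k))
    (ν : ℕ → ℕ) (R : (j : ℕ) → Set (Fin (ν j) → ℂ)) (hR : ∀ j, CQ (ν j) (R j))
    (hRm : ∀ j, MeasurableSet (R j))
    (A : Set ℂ) (hA : A.Countable)
    (n d : ℕ) (φ : (Fin n → ℂ) → (Fin d → ℂ)) (hφ : AnalyticOnNhd ℂ φ univ) :
    ∃ x₀ : Fin n → ℂ,
      (∀ π : Equiv.Perm (Fin n), AllBut n fun y => ∃ σ, IsIso F R A (φ x₀) (φ (y ∘ π)) σ) ∧
      ∀ (μ : Fin n → Measure ℂ) [∀ i, SigmaFinite (μ i)], (∀ i z, μ i {z} = 0) →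
        ∀ᵐ y ∂(Measure.pi μ), ∃ σ, IsIso F R A (φ x₀) (φ y) σ :=
  generic_iso hF hord hR hRm hA n d φ hφ

end Pool.Agent.Results.MP_a12702_lc.IsomorphicTuples
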